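import Mathlib
set_option autoImplicit false

namespace Pool.Agent.Results.MP_a94181_al.NoExponent

abbrev J (m : ℕ) := Fin m × Bool
abbrev Pr (m : ℕ) := {p : J m × J m // p.1.1 < p.2.1}

@[ext] structure G (m : ℕ) (R : Type) where
  v : J m → R
  z : Pr m → R
  s : Bool

section grp
variable {m : ℕ} {R : Type} [CommRing R]

def sg (R : Type) [CommRing R] (s : Bool) : R := if s then -1 else 1

instance : Mul (G m R) := ⟨fun g h => ⟨fun x => g.v x + sg R g.s * h.v x,
  fun p => g.z p + h.z p + sg R g.s * (g.v p.1.1 * h.v p.1.2), xor g.s h.s⟩⟩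
instance : One (G m R) := ⟨⟨0, 0, false⟩⟩
instance : Inv (G m R) := ⟨fun g => ⟨fun x => -(sg R g.s * g.v x),
  fun p => -g.z p + g.v p.1.1 * g.v p.1.2, g.s⟩⟩

@[simp] lemma mul_v (g h : G m R) (x : J m) : (g * h).v x = g.v x + sg R g.s * h.v x := rfl
@[simp] lemma mul_z (g h : G m R) (p : Pr m) :
    (g * h).z p = g.z p + h.z p + sg R g.s * (g.v p.1.1 * h.v p.1.2) := rfl
@[simp] lemma mul_s (g h : G m R) : (g * h).s = xor g.s h.s := rfl
@[simp] lemma one_v (x : J m) : (1 : G m R).v x = 0 := rfl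
@[simp] lemma one_z (p : Pr m) : (1 : G m R).z p = 0 := rfl
@[simp] lemma one_s : (1 : G m R).s = false := rfl
@[simp] lemma inv_v (g : G m R) (x : J m) : g⁻¹.v x = -(sg R g.s * g.v x) := rfl
@[simp] lemma inv_z (g : G m R) (p : Pr m) : g⁻¹.z p = -g.z p + g.v p.1.1 * g.v p.1.2 := rfl
@[simp] lemma inv_s (g : G m R) : g⁻¹.s = g.s := rfl
@[simp] lemma sg_t : sg R true = -1 := rfl
@[simp] lemma sg_f : sg R false = 1 := rfl

instance : Group (G m R) := Group.ofLeftAxioms
  (by
    rintro ⟨a, b, c⟩ ⟨d, e, f⟩ ⟨g, h, i⟩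
    cases c <;> cases f <;> ext <;> simp <;> ring)
  (by rintro ⟨a, b, c⟩; ext <;> simp)
  (by rintro ⟨a, b, c⟩; cases c <;> ext <;> simp)

def eqv : G m R ≃ (J m → R) × (Pr m → R) × Bool :=
  ⟨fun g => (g.v, g.z, g.s), fun p => ⟨p.1, p.2.1, p.2.2⟩, fun _ => rfl, fun _ => rfl⟩

def t : G m R := ⟨0, 0, true⟩
def xx (j : J m) : G m R := ⟨Pi.single j 1, 0, false⟩

lemma central (g : G m R) (h1 : g.v = 0) (h2 : g.s = false) (h : G m R) : g * h = h * g := by
  ext <;> simp [h1, h2, add_comm]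

lemma pow_f (g : G m R) (h : g.s = false) (k : ℕ) :
    (g ^ k).s = false ∧ ∀ x, (g ^ k).v x = k * g.v x := by
  induction k with
  | zero => simp
  | succ k ih =>
    rw [pow_succ]
    refine ⟨by simp [ih.1, h], fun x => ?_⟩
    simp only [mul_v, ih.1, ih.2, sg_f]; push_cast; ring

lemma single_mul (j : J m) (p : Pr m) :
    (Pi.single j 1 : J m → R) p.1.1 * (Pi.single j 1 : J m → R) p.1.2 = 0 := by
  by_cases h : p.1.1 = j
  · have : p.1.2 ≠ j := fun e => by have := p.2; rw [h, e] at this; exact lt_irrefl _ this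
    simp [this]
  · simp [h]

lemma t_sq : (t : G m R) * t = 1 := by ext <;> simp [t]

lemma xt_sq (j : J m) : (xx j * t : G m R) * (xx j * t) = 1 := by
  ext x
  · simp [t, xx]
  · simp [t, xx, single_mul]
  · simp [t, xx]

lemma xx_comm (i : Fin m) (b : Bool) : (xx (i, b) * xx (i, !b) : G m R) = xx (i, !b) * xx (i, b) := by
  have h : ∀ (a c : Bool) (p : Pr m),
      (Pi.single (i, a) 1 : J m → R) p.1.1 * (Pi.single (i, c) 1 : J m → R) p.1.2 = 0 := by
    intro a c p
    by_cases h : p.1.1 = (i, a)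
    · have : p.1.2 ≠ (i, c) := fun e => by have := p.2; rw [h, e] at this; exact lt_irrefl _ this
      simp [this]
    · simp [h]
  ext <;> simp [xx, h, add_comm]

lemma beta {g h : G m R} (hg : g.s = false) (hh : h.s = false) (e : g * h = h * g) (x y : J m)
    (hxy : x.1 ≠ y.1) : g.v x * h.v y = h.v x * g.v y := by
  rcases lt_or_gt_of_ne hxy with l | l
  · have := congrFun (congrArg G.z e) ⟨(x, y), l⟩
    simp only [mul_z, hg, hh, sg_f] at this
    linear_combination this
  · have := congrFun (congrArg G.z e) ⟨(y, x), l⟩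
    simp only [mul_z, hg, hh, sg_f] at this
    linear_combination -this

lemma block {c : R} (hc : ∀ a : R, c * a = 0 ∨ (IsUnit a ∧ c * (a + 1) = 0)) (h2 : c + c = 0)
    (u w : J m → R) (hb : ∀ x y : J m, x.1 ≠ y.1 → u x * w y = w x * u y)
    (h1 : ∃ x, c * u x ≠ 0) (h3 : ∃ x, c * w x ≠ 0) (h4 : ∃ x, c * (u x + w x) ≠ 0) :
    ∃ i, ∀ y : J m, y.1 ≠ i → u y = 0 := by
  obtain ⟨x, hx⟩ := h1
  obtain ⟨l, hl⟩ := ((hc _).resolve_left hx).1.exists_left_inv
  have h5 : ∀ y : J m, y.1 ≠ x.1 → w y - l * w x * u y = 0 := fun y hy => by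
    have := hb x y hy.symm
    linear_combination l * this - w y * hl
  have h6 : ∃ x', c * (w x' - l * w x * u x') ≠ 0 := by
    rcases hc (l * w x) with h | h
    · obtain ⟨y, hy⟩ := h3
      exact ⟨y, fun e => hy (by linear_combination e + u y * h)⟩
    · obtain ⟨y, hy⟩ := h4
      exact ⟨y, fun e => hy (by linear_combination e + u y * h.2)⟩
  obtain ⟨x', hx'⟩ := h6
  have h7 : x'.1 = x.1 := by
    by_contra h
    exact hx' (by rw [h5 x' h, mul_zero])
  obtain ⟨k, hk⟩ := ((hc _).resolve_left hx').1.exists_left_inv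
  refine ⟨x.1, fun y hy => ?_⟩
  have a1 := hb x' y (h7 ▸ hy.symm)
  have a2 := h5 y hy
  linear_combination -u y * hk - k * a1 + k * u x' * a2

end grp

section zm
variable {m n : ℕ} [NeZero n]

lemma pi_top {ι : Type} [Fintype ι] [DecidableEq ι] (K : AddSubgroup (ι → ZMod n))
    (h : ∀ i, Pi.single i 1 ∈ K) (v : ι → ZMod n) : v ∈ K := by
  rw [← Finset.univ_sum_single v]
  refine sum_mem (fun i _ => ?_)
  have : (Pi.single i (v i) : ι → ZMod n) = (v i).val • Pi.single i 1 := by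
    rw [← Pi.single_nsmul]; simp
  rw [this]
  exact nsmul_mem (h i) _

lemma gen (H : Subgroup (G m (ZMod n))) (ht : t ∈ H) (hx : ∀ j, xx j ∈ H) (g : G m (ZMod n)) :
    g ∈ H := by
  have hz : ∀ z, (⟨0, z, false⟩ : G m (ZMod n)) ∈ H := by
    let K : AddSubgroup (Pr m → ZMod n) :=
      { carrier := {z | (⟨0, z, false⟩ : G m (ZMod n)) ∈ H}
        zero_mem' := H.one_mem
        add_mem' := fun {a b} ha hb => by
          have := H.mul_mem ha hb
          show _ ∈ H
          convert this using 1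
          ext <;> simp
        neg_mem' := fun {a} ha => by
          have := H.inv_mem ha
          show _ ∈ H
          convert this using 1
          ext <;> simp }
    refine pi_top K (fun p => ?_)
    have := H.mul_mem (H.mul_mem (hx p.1.1) (hx p.1.2)) (H.inv_mem (H.mul_mem (hx p.1.2) (hx p.1.1)))
    show _ ∈ H
    convert this using 1
    obtain ⟨⟨x, y⟩, hp⟩ := p
    ext q
    · simp only [xx, mul_v, inv_v, mul_s, Pi.zero_apply, Bool.xor_false, sg_f]; ring
    · obtain ⟨⟨x', y'⟩, hq⟩ := q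
      simp only [xx, mul_z, mul_v, inv_z, inv_v, mul_s, Pi.zero_apply, Bool.xor_false, sg_f,
        Pi.single_apply, Subtype.mk.injEq, Prod.mk.injEq]
      dsimp only at hp hq
      by_cases a1 : x' = x <;> by_cases a2 : y' = y <;> by_cases a3 : x' = y <;>
        by_cases a4 : y' = x <;> simp only [a1, a2, a3, a4] <;> subst_vars <;>
        first | (exfalso; omega) | simp_all
    · simp [xx]
  have hv : ∀ v, ∃ z, (⟨v, z, false⟩ : G m (ZMod n)) ∈ H := by
    let K : AddSubgroup (J m → ZMod n) :=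
      { carrier := {v | ∃ z, (⟨v, z, false⟩ : G m (ZMod n)) ∈ H}
        zero_mem' := ⟨0, H.one_mem⟩
        add_mem' := fun {a b} ⟨z, ha⟩ ⟨z', hb⟩ => by
          have := H.mul_mem ha hb
          refine ⟨(⟨a, z, false⟩ * ⟨b, z', false⟩ : G m (ZMod n)).z, ?_⟩
          convert this using 1
          ext <;> simp
        neg_mem' := fun {a} ⟨z, ha⟩ => by
          have := H.inv_mem ha
          refine ⟨(⟨a, z, false⟩ : G m (ZMod n))⁻¹.z, ?_⟩
          convert this using 1
          ext <;> simp }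
    exact pi_top K (fun j => ⟨0, hx j⟩)
  obtain ⟨v, z, s⟩ := g
  obtain ⟨z', h⟩ := hv v
  have h1 := H.mul_mem h (hz (z - z'))
  cases s
  · convert h1 using 1
    ext <;> simp
  · convert H.mul_mem h1 ht using 1
    ext <;> simp [t]

end zm

lemma dich (e : ℕ) (a : ZMod (2 ^ (e + 1))) : (2 ^ e : ZMod (2 ^ (e + 1))) * a = 0 ∨
    (IsUnit a ∧ (2 ^ e : ZMod (2 ^ (e + 1))) * (a + 1) = 0) := by
  have h0 : (2 ^ e : ZMod (2 ^ (e + 1))) * 2 = 0 := by
    rw [← pow_succ]; exact_mod_cast ZMod.natCast_self (2 ^ (e + 1))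
  obtain ⟨k, rfl⟩ := ZMod.natCast_zmod_surjective a
  rcases Nat.even_or_odd' k with ⟨j, rfl | rfl⟩
  · left; push_cast; linear_combination (j : ZMod (2 ^ (e + 1))) * h0
  · right
    refine ⟨(ZMod.isUnit_iff_coprime _ _).mpr (Nat.Coprime.pow_right _ (by simp)), ?_⟩
    push_cast; linear_combination ((j : ZMod (2 ^ (e + 1))) + 1) * h0

lemma cne (e : ℕ) : (2 ^ e : ZMod (2 ^ (e + 1))) ≠ 0 := by
  intro h
  have : ((2 ^ e : ℕ) : ZMod (2 ^ (e + 1))) = 0 := by exact_mod_cast h
  rw [ZMod.natCast_eq_zero_iff] at this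
  have h1 := Nat.le_of_dvd (by positivity) this
  have h2 : 0 < 2 ^ e := by positivity
  rw [pow_succ] at h1; omega

lemma half (e : ℕ) (a b : ZMod (2 ^ (e + 1))) (h : a + a = b + b)
    (h' : decide (a.val < 2 ^ e) = decide (b.val < 2 ^ e)) : a = b := by
  apply ZMod.val_injective
  have h1 := congrArg ZMod.val h
  rw [ZMod.val_add, ZMod.val_add] at h1
  have ha := ZMod.val_lt a
  have hb := ZMod.val_lt b
  rw [decide_eq_decide] at h'
  generalize a.val = x at *
  generalize b.val = y at *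
  rw [pow_succ] at *
  generalize 2 ^ e = N at *
  by_cases hx : x < N
  · rw [Nat.mod_eq_of_lt (by omega), Nat.mod_eq_of_lt (by omega)] at h1; omega
  · rw [Nat.mod_eq_sub_mod (by omega), Nat.mod_eq_of_lt (by omega),
      Nat.mod_eq_sub_mod (by omega), Nat.mod_eq_of_lt (by omega)] at h1
    omega

abbrev Rr (e : ℕ) := ZMod (2 ^ (e + 1))

def tag {m e : ℕ} (g : G m (Rr e)) : Bool × (Pr m → Bool) :=
  (g.s, fun p => decide ((g.z p).val < 2 ^ e))

lemma inv_eq {m e : ℕ} {g h : G m (Rr e)} (hg : g * g = 1) (hh : h * h = 1) (hv : g.v = h.v)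
    (ht : tag g = tag h) : g = h := by
  obtain ⟨h1, h2⟩ := Prod.mk.inj ht
  refine G.ext hv (funext fun p => half e _ _ ?_ (congrFun h2 p)) h1
  have a1 := congrFun (congrArg G.z hg) p
  have a2 := congrFun (congrArg G.z hh) p
  simp only [mul_z, one_z] at a1 a2
  rw [hv, h1] at a1
  linear_combination a1 - a2

lemma aut_block {m e : ℕ} (hm : 2 ≤ m) (a : MulAut (G m (Rr (e + 1)))) (j : J m) :
    ∃ i, ∀ y : J m, y.1 ≠ i → (a (xx j)).v y = 0 := by
  obtain ⟨i, b⟩ := j
  have key : ∀ g : G m (Rr (e + 1)), g.s = false → g.v (i, b) = 1 ∨ g.v (i, !b) = 1 →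
      (a g).s = false ∧ ∃ x, (2 ^ (e + 1) : Rr (e + 1)) * (a g).v x ≠ 0 := by
    intro g hs hv
    have hnc : ¬ ((a g ^ 2 ^ (e + 1)).v = 0 ∧ (a g ^ 2 ^ (e + 1)).s = false) := by
      rintro ⟨h1, h2⟩
      obtain ⟨k, hk⟩ : ∃ k : Fin m, i ≠ k := by
        by_cases h : i.1 = 0
        · exact ⟨⟨1, by omega⟩, fun e => by rw [e] at h; simp at h⟩
        · exact ⟨⟨0, by omega⟩, fun e => by rw [e] at h; simp at h⟩
      have h3 := central _ h1 h2 (a (xx (k, false)))
      rw [← map_pow, ← map_mul, ← map_mul] at h3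
      have h4 := beta (pow_f g hs _).1 rfl (a.injective h3)
      obtain ⟨c, hc⟩ : ∃ c, g.v (i, c) = 1 := hv.elim (fun h => ⟨_, h⟩) (fun h => ⟨_, h⟩)
      have h5 := h4 (i, c) (k, false) hk
      rw [(pow_f g hs _).2, hc] at h5
      apply cne (e + 1)
      simpa [xx, hk] using h5
    have hs' : (a g).s = false := by
      by_contra h
      apply hnc
      have h1 : (a g).s = true := by simpa using h
      have h2 : (a g ^ 2).s = false := by simp [sq]
      have h3 : a g ^ 2 ^ (e + 1) = (a g ^ 2) ^ 2 ^ e := by rw [← pow_mul, ← pow_succ']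
      rw [h3]
      refine ⟨funext fun x => ?_, (pow_f _ h2 _).1⟩
      rw [(pow_f _ h2 _).2]; simp [sq, h1]
    refine ⟨hs', ?_⟩
    by_contra h
    push Not at h
    refine hnc ⟨funext fun x => ?_, (pow_f _ hs' _).1⟩
    rw [(pow_f _ hs' _).2]; push_cast; exact h x
  obtain ⟨a1, a2⟩ := key (xx (i, b)) rfl (Or.inl (by simp [xx]))
  obtain ⟨b1, b2⟩ := key (xx (i, !b)) rfl (Or.inr (by simp [xx]))
  obtain ⟨_, c2⟩ := key (xx (i, b) * xx (i, !b)) rfl (Or.inl (by simp [xx]))
  refine block (dich (e + 1)) ?_ _ (a (xx (i, !b))).v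
    (beta a1 b1 (by rw [← map_mul, ← map_mul, xx_comm])) a2 b2 ?_
  · rw [← mul_two, ← pow_succ]; exact_mod_cast ZMod.natCast_self (2 ^ (e + 1 + 1))
  · simpa [a1] using c2

lemma aut_card {m e : ℕ} (hm : 2 ≤ m) : Nat.card (MulAut (G m (Rr (e + 1)))) ≤
    Nat.card (((J m → Rr (e + 1)) × (Bool × (Pr m → Bool))) ×
      (J m → (Fin m × (Bool → Rr (e + 1))) × (Bool × (Pr m → Bool)))) := by
  choose f hf using fun (a : MulAut (G m (Rr (e + 1)))) j => aut_block hm a j
  refine Nat.card_le_card_of_injective (fun a => (((a t).v, tag (a t)),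
    fun j => ((f a j, fun b => (a (xx j)).v (f a j, b)), tag (a (xx j * t))))) ?_
  intro a b h
  obtain ⟨h1, h2⟩ := Prod.mk.inj h
  obtain ⟨h3, h4⟩ := Prod.mk.inj h1
  have sq : ∀ (a : MulAut (G m (Rr (e + 1)))) g, g * g = 1 → a g * a g = 1 := fun a g hg => by
    rw [← map_mul, hg, map_one]
  have et : a t = b t := inv_eq (sq a _ t_sq) (sq b _ t_sq) h3 h4
  have ex : ∀ j, a (xx j) = b (xx j) := by
    intro j
    obtain ⟨h5, h6⟩ := Prod.mk.inj (congrFun h2 j)
    obtain ⟨h7, h8⟩ := Prod.mk.inj h5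
    have h9 : (a (xx j)).v = (b (xx j)).v := by
      funext y
      by_cases hy : y.1 = f a j
      · have := congrFun h8 y.2
        rw [← h7, ← hy] at this
        exact this
      · rw [hf a j y hy, hf b j y (h7 ▸ hy)]
    have hs : (a (xx j)).s = (b (xx j)).s := by
      have := (Prod.mk.inj h6).1
      rw [map_mul, map_mul, et, mul_s, mul_s] at this
      exact Bool.xor_left_inj.mp this
    have := inv_eq (sq a _ (xt_sq j)) (sq b _ (xt_sq j))
      (by funext y; rw [map_mul, map_mul, et, mul_v, mul_v, h9, hs]) h6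
    rw [map_mul, map_mul, et] at this
    exact mul_right_cancel this
  ext1 g
  exact gen (MonoidHom.eqLocus (a : G m (Rr (e + 1)) →* G m (Rr (e + 1)))
    (b : G m (Rr (e + 1)) →* G m (Rr (e + 1)))) et ex g

lemma Pr_card (k : ℕ) : k * k ≤ Fintype.card (Pr (k + k)) := by
  have := Fintype.card_le_of_injective (fun p : Fin k × Fin k =>
    (⟨((Fin.castAdd k p.1, false), (Fin.natAdd k p.2, false)), by
      have := p.1.2
      simp only [Fin.lt_def, Fin.val_castAdd, Fin.val_natAdd]; omega⟩ : Pr (k + k)))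
    (fun p q h => by
      simp only [Subtype.mk.injEq, Prod.mk.injEq, and_true, Fin.ext_iff, Fin.val_castAdd,
        Fin.val_natAdd] at h
      exact Prod.ext (Fin.ext h.1) (Fin.ext (by omega)))
  simpa using this

theorem result (a : ℝ) (ha : 0 < a) : ∃ (H : Type) (_ : Group H), Finite H ∧
    Group.IsNilpotent H ∧ (Nat.card (MulAut H) : ℝ) < (Nat.totient (Nat.card H) : ℝ) ^ a := by
  obtain ⟨k, hk⟩ := exists_nat_ge (13 / a + 1)
  have hk1 : (1 : ℝ) ≤ k := by have : 0 < 13 / a := by positivity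
                               linarith
  have hk1' : 1 ≤ k := by exact_mod_cast hk1
  have hka : 13 ≤ a * k := by
    have : 13 / a ≤ k := by linarith
    rw [div_le_iff₀ ha] at this; linarith
  set m := k + k with hm
  set P := Fintype.card (Pr m) with hP
  set C := 2 * 2 ^ P * (m * (2 * 2 ^ P)) ^ (m * 2) with hC
  set n := 2 ^ (C + 1 + 1) with hn
  have hfin : Finite (G m (Rr (C + 1))) := Finite.of_equiv _ eqv.symm
  have hcard : Nat.card (G m (Rr (C + 1))) = 2 ^ ((C + 1 + 1) * (m * 2 + P) + 1) := by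
    rw [Nat.card_congr eqv]
    simp only [Nat.card_eq_fintype_card, Fintype.card_prod, Fintype.card_fun, ZMod.card,
      Fintype.card_fin, Fintype.card_bool, ← hP]
    generalize C + 1 + 1 = D
    ring
  have hp : Fact (Nat.Prime 2) := ⟨Nat.prime_two⟩
  refine ⟨G m (Rr (C + 1)), inferInstance, hfin, (IsPGroup.of_card hcard).isNilpotent, ?_⟩
  have h1 := aut_card (m := m) (e := C) (by omega)
  have hPn : Nat.card (Pr m) = P := Nat.card_eq_fintype_card
  have hB : Nat.card Bool = 2 := by simp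
  simp only [Nat.card_prod, Nat.card_fun, Nat.card_zmod, Nat.card_fin, hB, hPn, ← hn] at h1
  have h2 : n ^ (m * 2) * (2 * 2 ^ P) * (m * n ^ 2 * (2 * 2 ^ P)) ^ (m * 2) = C * n ^ (12 * k) := by
    have e : ∀ x y z : ℕ, x ^ (m * 2) * y * (z * x ^ 2 * y) ^ (m * 2) =
        y * (z * y) ^ (m * 2) * x ^ (m * 2 + 2 * (m * 2)) := fun x y z => by
      rw [mul_pow, mul_pow, mul_pow, ← pow_mul, pow_add]; ring
    rw [e, show 12 * k = m * 2 + 2 * (m * 2) by omega]
  have h3 : C < n := Nat.lt_two_pow_self.trans_le (Nat.pow_le_pow_right (by norm_num) (by omega))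
  have hn0 : 0 < n := by omega
  have h4 : Nat.card (MulAut (G m (Rr (C + 1)))) < n ^ (12 * k + 1) := by
    refine (h1.trans_eq h2).trans_lt ?_
    rw [pow_succ, mul_comm]
    exact Nat.mul_lt_mul_of_pos_left h3 (by positivity)
  have h8 : Nat.totient (Nat.card (G m (Rr (C + 1)))) = n ^ (m * 2 + P) := by
    rw [hcard, Nat.totient_prime_pow_succ Nat.prime_two, pow_mul]; exact mul_one _
  rw [h8]
  have h5 : (Nat.card (MulAut (G m (Rr (C + 1)))) : ℝ) < (n : ℝ) ^ (12 * k + 1) := by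
    exact_mod_cast h4
  refine h5.trans_le ?_
  have hn1 : (1 : ℝ) ≤ n := by exact_mod_cast hn0
  have h6 : ((k * k : ℕ) : ℝ) ≤ P := by exact_mod_cast Pr_card k
  clear_value n
  rw [Nat.cast_pow, ← Real.rpow_natCast, ← Real.rpow_natCast, ← Real.rpow_mul (by positivity)]
  apply Real.rpow_le_rpow_of_exponent_le hn1
  push_cast at h6 ⊢
  have h7 : (0 : ℝ) ≤ m := by positivity
  nlinarith [mul_le_mul_of_nonneg_left h6 ha.le, mul_le_mul_of_nonneg_right hka (by linarith : (0 : ℝ) ≤ k)]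

end Pool.Agent.Results.MP_a94181_al.NoExponent
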